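import Mathlib

/-!
# Subdivisions of transitive tournaments: robust paths

`HasTT`: a subdivision of `TT_k`, in the words of the problem. `Rob`: a short path which avoids any
given small set. `asm`: robust paths between the vertices of a list give a subdivision. `tour`:
many vertices which are pairwise joined, in one direction, by robust paths.
-/

set_option autoImplicit false

namespace Pool.MTK

open Finset

variable {V : Type}

/-- A subdivision of the transitive tournament on `k` vertices. -/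
def HasTT (k : ℕ) (A : V → V → Prop) : Prop :=
  ∃ f : Fin k → V, Function.Injective f ∧
    ∃ L : Fin k → Fin k → ℕ, ∃ p : Fin k → Fin k → ℕ → V,
      (∀ i j : Fin k, i < j →
          p i j 0 = f i ∧ p i j (L i j) = f j ∧
          (∀ t : ℕ, t < L i j → A (p i j t) (p i j (t + 1))) ∧
          (∀ s t : ℕ, s ≤ L i j → t ≤ L i j → p i j s = p i j t → s = t) ∧
          (∀ (t : ℕ) (m : Fin k), 0 < t → t < L i j → p i j t ≠ f m)) ∧
      (∀ i j i' j' : Fin k, i < j → i' < j' → (i ≠ i' ∨ j ≠ j') →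
          ∀ s t : ℕ, 0 < s → s < L i j → 0 < t → t < L i' j' →
            p i j s ≠ p i' j' t)

/-- A path from `u` to `v` with at most `ℓ` inner vertices, avoiding any `N` given vertices. -/
def Rob (A : V → V → Prop) (ℓ N : ℕ) (u v : V) : Prop :=
  ∀ F : Finset V, F.card ≤ N → ∃ l : List V, l.length ≤ ℓ ∧ l.Nodup ∧ (∀ x ∈ l, x ∉ F) ∧
    List.IsChain A (u :: (l ++ [v]))

theorem Rob.mono {A : V → V → Prop} {ℓ ℓ' N N' : ℕ} {u v : V} (h : Rob A ℓ N u v) (hℓ : ℓ ≤ ℓ')
    (hN : N' ≤ N) : Rob A ℓ' N' u v := fun F hF => by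
  obtain ⟨l, h1, h2⟩ := h F (hF.trans hN)
  exact ⟨l, h1.trans hℓ, h2⟩

theorem rob_arc {A : V → V → Prop} {u v : V} (h : A u v) (ℓ N : ℕ) : Rob A ℓ N u v := fun _ _ =>
  ⟨[], by simp, List.nodup_nil, by simp, by simpa using h⟩

open Classical in
/-- Many common middle vertices. -/
theorem rob_two [Fintype V] {A : V → V → Prop} {u v : V} {ℓ N : ℕ} (hℓ : 1 ≤ ℓ)
    (h : N < (univ.filter fun w => A u w ∧ A w v).card) : Rob A ℓ N u v := by
  intro F hF
  obtain ⟨w, hw, hwF⟩ := Finset.exists_mem_notMem_of_card_lt_card (hF.trans_lt h)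
  rw [mem_filter] at hw
  refine ⟨[w], by simpa using hℓ, List.nodup_singleton w, by simpa using hwF, ?_⟩
  simpa using hw.2

open Classical in
theorem asm_pairs {A : V → V → Prop} {k ℓ N : ℕ} (hN : k + k * k * ℓ ≤ N) (f : Fin k → V)
    (hf : ∀ i j, i < j → Rob A ℓ N (f i) (f j)) (Q : Finset (Fin k × Fin k))
    (hQ : ∀ q ∈ Q, q.1 < q.2) : ∃ l : Fin k × Fin k → List V,
      (∀ q ∈ Q, (l q).length ≤ ℓ ∧ (l q).Nodup ∧ (∀ x ∈ l q, ∀ m, x ≠ f m) ∧
        List.IsChain A (f q.1 :: (l q ++ [f q.2]))) ∧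
      ∀ q ∈ Q, ∀ q' ∈ Q, q ≠ q' → ∀ x ∈ l q, x ∉ l q' := by
  induction Q using Finset.induction_on with
  | empty => exact ⟨fun _ => [], by simp, by simp⟩
  | insert q Q hq ih =>
    obtain ⟨l, h1, h2⟩ := ih fun q' h => hQ q' (mem_insert_of_mem h)
    have hlt := hQ q (mem_insert_self _ _)
    obtain ⟨F, hF⟩ : ∃ F : Finset V, F = univ.image f ∪ Q.biUnion fun q => (l q).toFinset :=
      ⟨_, rfl⟩
    have hFc : F.card ≤ N := by
      have c1 : (univ.image f).card ≤ k := card_image_le.trans (by simp)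
      have c2 : (Q.biUnion fun q => (l q).toFinset).card ≤ Q.card * ℓ :=
        card_biUnion_le_card_mul _ _ _ fun q' h' =>
          (List.toFinset_card_le _).trans (h1 q' h').1
      have c3 : Q.card ≤ k * k := by
        refine (card_le_univ Q).trans ?_
        simp
      have c4 : Q.card * ℓ ≤ k * k * ℓ := Nat.mul_le_mul_right ℓ c3
      rw [hF]
      exact (card_union_le _ _).trans (by omega)
    obtain ⟨l', g1, g2, g3, g4⟩ := hf q.1 q.2 hlt F hFc
    have g5 : ∀ x ∈ l', ∀ q' ∈ Q, x ∉ l q' := fun x hx q' hq' hm => by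
      refine g3 x hx ?_
      rw [hF, mem_union, mem_biUnion]
      exact Or.inr ⟨q', hq', List.mem_toFinset.2 hm⟩
    have g6 : ∀ x ∈ l', ∀ m, x ≠ f m := fun x hx m hm => by
      refine g3 x hx ?_
      rw [hF, mem_union, mem_image]
      exact Or.inl ⟨m, mem_univ _, hm.symm⟩
    refine ⟨Function.update l q l', ?_, ?_⟩
    · intro q' hq'
      rcases eq_or_ne q' q with rfl | hne
      · rw [Function.update_self]
        exact ⟨g1, g2, g6, g4⟩
      · rw [Function.update_of_ne hne]
        exact h1 q' (mem_of_mem_insert_of_ne hq' hne)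
    · intro q1 hq1 q2 hq2 hne x hx
      rcases eq_or_ne q1 q with e1 | e1
      · have e2 : q2 ≠ q := fun h => hne (e1.trans h.symm)
        rw [e1, Function.update_self] at hx
        rw [Function.update_of_ne e2]
        exact g5 x hx q2 (mem_of_mem_insert_of_ne hq2 e2)
      · rw [Function.update_of_ne e1] at hx
        rcases eq_or_ne q2 q with e2 | e2
        · rw [e2, Function.update_self]
          exact fun hm => g5 x hm q1 (mem_of_mem_insert_of_ne hq1 e1) hx
        · rw [Function.update_of_ne e2]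
          exact h2 q1 (mem_of_mem_insert_of_ne hq1 e1) q2 (mem_of_mem_insert_of_ne hq2 e2) hne x hx

open Classical in
/-- **The assembly.** -/
theorem asm {A : V → V → Prop} {k ℓ N : ℕ} (hN : k + k * k * ℓ ≤ N) (P : List V)
    (hk : k ≤ P.length) (hnd : P.Nodup) (hP : P.Pairwise (Rob A ℓ N)) : HasTT k A := by
  obtain ⟨f, hf⟩ : ∃ f : Fin k → V, f = fun i => P[i.1]'(by
    have := i.2
    omega) := ⟨_, rfl⟩
  have hfi : Function.Injective f := by
    intro i j hij
    rw [hf] at hij
    simp only at hij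
    exact Fin.ext ((hnd.getElem_inj_iff).1 hij)
  have hfr : ∀ i j, i < j → Rob A ℓ N (f i) (f j) := by
    intro i j hij
    rw [hf]
    rw [List.pairwise_iff_getElem] at hP
    exact hP i.1 j.1 _ _ hij
  obtain ⟨l, h1, h2⟩ := asm_pairs hN f hfr (univ.filter fun q => q.1 < q.2)
    (fun q hq => (mem_filter.1 hq).2)
  have h1' : ∀ i j : Fin k, i < j → _ := fun i j hij =>
    h1 (i, j) (mem_filter.2 ⟨mem_univ _, hij⟩)
  obtain ⟨w, hw⟩ : ∃ w : Fin k → Fin k → List V, w = fun i j => f i :: (l (i, j) ++ [f j]) :=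
    ⟨_, rfl⟩
  have hwl : ∀ i j, (w i j).length = (l (i, j)).length + 2 := by
    intro i j
    rw [hw]
    simp
  -- values
  have v0 : ∀ i j, (w i j).getD 0 (f i) = f i := by
    intro i j
    rw [hw]
    simp
  have vL : ∀ i j, (w i j).getD ((l (i, j)).length + 1) (f i) = f j := by
    intro i j
    rw [hw]
    simp
  have vm : ∀ i j t, 0 < t → t < (l (i, j)).length + 1 →
      (w i j).getD t (f i) ∈ l (i, j) := by
    intro i j t h0 ht
    obtain ⟨s, rfl⟩ : ∃ s, t = s + 1 := ⟨t - 1, by omega⟩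
    rw [hw]
    simp only [List.getD_cons_succ]
    have hs : s < (l (i, j)).length := by omega
    rw [List.getD_eq_getElem _ _ (by simp; omega), List.getElem_append_left hs]
    exact List.getElem_mem hs
  have hwn : ∀ i j, i < j → (w i j).Nodup := by
    intro i j hij
    obtain ⟨_, b2, b3, _⟩ := h1' i j hij
    rw [hw]
    simp only
    rw [List.nodup_cons]
    refine ⟨?_, ?_⟩
    · rw [List.mem_append, List.mem_singleton]
      rintro (h | h)
      · exact b3 _ h i rfl
      · exact hij.ne (hfi h)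
    · rw [List.nodup_append]
      refine ⟨b2, List.nodup_singleton _, ?_⟩
      intro a ha b hb hab
      rw [List.mem_singleton] at hb
      rw [hb] at hab
      exact b3 a ha j hab
  refine ⟨f, hfi, fun i j => (l (i, j)).length + 1, fun i j t => (w i j).getD t (f i), ?_, ?_⟩
  · intro i j hij
    obtain ⟨b1, b2, b3, b4⟩ := h1' i j hij
    refine ⟨v0 i j, vL i j, ?_, ?_, ?_⟩
    · intro t ht
      have hl := hwl i j
      replace ht : t < (l (i, j)).length + 1 := ht
      show A ((w i j).getD t (f i)) ((w i j).getD (t + 1) (f i))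
      have b5 : List.IsChain A (w i j) := by
        rw [hw]
        exact b4
      rw [List.isChain_iff_getElem] at b5
      have := b5 t (by omega)
      rw [List.getD_eq_getElem _ _ (by omega), List.getD_eq_getElem _ _ (by omega)]
      exact this
    · intro s t hs ht he
      have hl := hwl i j
      replace hs : s ≤ (l (i, j)).length + 1 := hs
      replace ht : t ≤ (l (i, j)).length + 1 := ht
      replace he : (w i j).getD s (f i) = (w i j).getD t (f i) := he
      rw [List.getD_eq_getElem _ _ (by omega), List.getD_eq_getElem _ _ (by omega)] at he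
      exact ((hwn i j hij).getElem_inj_iff).1 he
    · intro t m h0 ht
      exact b3 _ (vm i j t h0 ht) m
  · intro i j i' j' hij hij' hne s t hs1 hs2 ht1 ht2 he
    have m1 := vm i j s hs1 hs2
    have m2 := vm i' j' t ht1 ht2
    simp only at he
    rw [← he] at m2
    refine h2 (i, j) (mem_filter.2 ⟨mem_univ _, hij⟩) (i', j') (mem_filter.2 ⟨mem_univ _, hij'⟩)
      ?_ _ m1 m2
    intro h
    rw [Prod.mk.injEq] at h
    rcases hne with h' | h'
    · exact h' h.1
    · exact h' h.2

/-- **Ramsey for tournaments.** -/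
theorem tour_list (T : V → V → Prop) (k : ℕ) : ∀ S : Finset V, 2 ^ k ≤ S.card →
    (∀ u ∈ S, ∀ v ∈ S, u ≠ v → T u v ∨ T v u) →
    ∃ P : List V, P.length = k ∧ P.Nodup ∧ (∀ x ∈ P, x ∈ S) ∧ P.Pairwise T := by
  classical
  induction k with
  | zero => exact fun S _ _ => ⟨[], rfl, List.nodup_nil, by simp, List.Pairwise.nil⟩
  | succ k ih =>
    intro S hS hT
    have hpos : 0 < S.card := lt_of_lt_of_le (by positivity) hS
    obtain ⟨v, hv⟩ := Finset.card_pos.1 hpos
    obtain ⟨S1, hS1⟩ : ∃ S1, S1 = (S.erase v).filter fun u => T v u := ⟨_, rfl⟩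
    obtain ⟨S2, hS2⟩ : ∃ S2, S2 = (S.erase v).filter fun u => ¬ T v u := ⟨_, rfl⟩
    have hc : S1.card + S2.card = S.card - 1 := by
      rw [hS1, hS2, Finset.card_filter_add_card_filter_not, card_erase_of_mem hv]
    have h2 : 2 ^ (k + 1) = 2 ^ k + 2 ^ k := by ring
    rcases (by omega : 2 ^ k ≤ S1.card ∨ 2 ^ k ≤ S2.card) with h | h
    · have hm : ∀ u ∈ S1, u ≠ v ∧ u ∈ S ∧ T v u := fun u hu => by
        rw [hS1, mem_filter, mem_erase] at hu
        exact ⟨hu.1.1, hu.1.2, hu.2⟩
      obtain ⟨P, p1, p2, p3, p4⟩ := ih S1 h fun u hu w hw hne =>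
        hT u (hm u hu).2.1 w (hm w hw).2.1 hne
      refine ⟨v :: P, by simp [p1], ?_, ?_, ?_⟩
      · rw [List.nodup_cons]
        exact ⟨fun h' => (hm v (p3 v h')).1 rfl, p2⟩
      · intro x hx
        rcases List.mem_cons.1 hx with rfl | hx
        · exact hv
        · exact (hm x (p3 x hx)).2.1
      · rw [List.pairwise_cons]
        exact ⟨fun x hx => (hm x (p3 x hx)).2.2, p4⟩
    · have hm : ∀ u ∈ S2, u ≠ v ∧ u ∈ S ∧ T u v := fun u hu => by
        rw [hS2, mem_filter, mem_erase] at hu
        exact ⟨hu.1.1, hu.1.2, (hT u hu.1.2 v hv hu.1.1).resolve_right hu.2⟩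
      obtain ⟨P, p1, p2, p3, p4⟩ := ih S2 h fun u hu w hw hne =>
        hT u (hm u hu).2.1 w (hm w hw).2.1 hne
      refine ⟨P ++ [v], by simp [p1], ?_, ?_, ?_⟩
      · rw [List.nodup_append]
        refine ⟨p2, List.nodup_singleton _, ?_⟩
        intro a ha b hb hab
        rw [List.mem_singleton] at hb
        exact (hm a (p3 a ha)).1 (hab.trans hb)
      · intro x hx
        rcases List.mem_append.1 hx with hx | hx
        · exact (hm x (p3 x hx)).2.1
        · rw [List.mem_singleton] at hx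
          rw [hx]
          exact hv
      · rw [List.pairwise_append]
        refine ⟨p4, List.pairwise_singleton _ _, ?_⟩
        intro a ha b hb
        rw [List.mem_singleton] at hb
        rw [hb]
        exact (hm a (p3 a ha)).2.2

/-- Many pairwise linked vertices. -/
theorem tour {A : V → V → Prop} {k ℓ N : ℕ} (hN : k + k * k * ℓ ≤ N) (S : Finset V)
    (hS : 2 ^ k ≤ S.card)
    (h : ∀ u ∈ S, ∀ v ∈ S, u ≠ v → Rob A ℓ N u v ∨ Rob A ℓ N v u) : HasTT k A := by
  obtain ⟨P, p1, p2, _, p4⟩ := tour_list (Rob A ℓ N) k S hS h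
  exact asm hN P p1.ge p2 p4

end Pool.MTK
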