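import Pool.Agent.H25.MTK.Bas

/-!
# Clusters

Two sides with all the adjacencies between them: one side is divided into few clusters of vertices
with almost the same out-neighbours on the other side.
-/

set_option autoImplicit false

namespace Pool.MTK

open Finset

variable {V : Type} [Fintype V]

open Classical in
/-- **Clusters.** -/
theorem clus {A : V → V → Prop} {k ℓ N : ℕ} (hℓ : 1 ≤ ℓ) (hN : k + k * k * ℓ ≤ N)
    (hT : ¬ HasTT k A) {M R : Finset V} (hc : ∀ a ∈ M, ∀ w ∈ R, A a w ∨ A w a) :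
    ∃ c : V → V, (∀ v ∈ M, c v ∈ M) ∧ (M.image c).card < 2 ^ k ∧
      ∀ v ∈ M, (R.filter fun w => A v w ∧ ¬ A (c v) w).card ≤ N ∧
        (R.filter fun w => A (c v) w ∧ ¬ A v w).card ≤ N := by
  obtain ⟨Lk, hLk⟩ : ∃ Lk : V → V → Prop, Lk = fun u v => Rob A ℓ N u v ∨ Rob A ℓ N v u :=
    ⟨_, rfl⟩
  obtain ⟨𝒮, h𝒮⟩ : ∃ 𝒮 : Finset (Finset V), 𝒮 = M.powerset.filter fun S =>
    ∀ u ∈ S, ∀ v ∈ S, u ≠ v → Lk u v := ⟨_, rfl⟩
  have hne : 𝒮.Nonempty := ⟨∅, by
    rw [h𝒮, mem_filter, mem_powerset]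
    exact ⟨empty_subset _, by simp⟩⟩
  obtain ⟨S, hS, hmax⟩ := exists_max_image 𝒮 card hne
  have hS' := hS
  rw [h𝒮, mem_filter, mem_powerset] at hS'
  obtain ⟨hSM, hSl⟩ := hS'
  have hcard : S.card < 2 ^ k := by
    by_contra hcon
    exact hT (tour hN S (not_lt.1 hcon) fun u hu v hv hne => by
      have := hSl u hu v hv hne
      rwa [hLk] at this)
  have key : ∀ v, ∃ s, v ∈ M → s ∈ S ∧ (s = v ∨ ¬ Lk v s) := by
    intro v
    by_cases hv : v ∈ M
    · by_cases hvS : v ∈ S
      · exact ⟨v, fun _ => ⟨hvS, Or.inl rfl⟩⟩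
      · by_contra hcon
        push Not at hcon
        have h1 : insert v S ∈ 𝒮 := by
          rw [h𝒮, mem_filter, mem_powerset]
          refine ⟨insert_subset hv hSM, ?_⟩
          have hsym : ∀ a b, Lk a b → Lk b a := by
            intro a b hab
            rw [hLk] at hab ⊢
            exact hab.symm
          have h3 : ∀ s ∈ S, Lk v s := fun s hs => ((hcon s).2 hs).2
          intro a ha b hb hab
          rcases mem_insert.1 ha with ha' | ha'
          · rcases mem_insert.1 hb with hb' | hb'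
            · exact absurd (ha'.trans hb'.symm) hab
            · rw [ha']
              exact h3 b hb'
          · rcases mem_insert.1 hb with hb' | hb'
            · rw [hb']
              exact hsym _ _ (h3 a ha')
            · exact hSl a ha' b hb' hab
        have h2 := hmax _ h1
        rw [card_insert_of_notMem hvS] at h2
        omega
    · exact ⟨v, fun h => absurd h hv⟩
  choose c hc' using key
  have two : ∀ u ∈ M, ∀ v ∈ M, ¬ Rob A ℓ N u v →
      (R.filter fun w => A u w ∧ ¬ A v w).card ≤ N := by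
    intro u hu v hv h
    have h1 : ¬ N < (univ.filter fun w => A u w ∧ A w v).card := fun h' => h (rob_two hℓ h')
    refine (card_le_card fun w hw => ?_).trans (not_lt.1 h1)
    rw [mem_filter] at hw ⊢
    exact ⟨mem_univ _, hw.2.1, (hc v hv w hw.1).resolve_left hw.2.2⟩
  refine ⟨c, fun v hv => hSM (hc' v hv).1, ?_, ?_⟩
  · refine lt_of_le_of_lt (card_le_card ?_) hcard
    intro s hs
    rw [mem_image] at hs
    obtain ⟨v, hv, rfl⟩ := hs
    exact (hc' v hv).1
  · intro v hv
    rcases (hc' v hv).2 with h | h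
    · rw [h]
      have e : ∀ w, ¬ (A v w ∧ ¬ A v w) := fun w h => h.2 h.1
      rw [filter_false_of_mem (fun w _ => e w), card_empty]
      exact ⟨Nat.zero_le _, Nat.zero_le _⟩
    · rw [hLk] at h
      rw [not_or] at h
      exact ⟨two v hv (c v) (hSM (hc' v hv).1) h.1, two (c v) (hSM (hc' v hv).1) v hv h.2⟩

omit [Fintype V] in
/-- **A gap.** -/
theorem gap {k N T : ℕ} {M : Finset V} (a : V → ℕ) (c : V → V) [DecidableEq V]
    (hc : (M.image c).card < 2 ^ k) (h : ∀ v ∈ M, a v ≤ a (c v) + N ∧ a (c v) ≤ a v + N) :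
    ∃ θ, T ≤ θ ∧ θ ≤ T + 3 * (N + 1) * 2 ^ k ∧ ∀ v ∈ M, a v ≤ θ ∨ θ + N < a v := by
  by_contra hcon
  push Not at hcon
  have key : ∀ i, ∃ v, i < 2 ^ k → v ∈ M ∧ T + 3 * (N + 1) * i < a v ∧
      a v ≤ T + 3 * (N + 1) * i + N := by
    intro i
    by_cases hi : i < 2 ^ k
    · obtain ⟨v, h1, h2, h3⟩ := hcon (T + 3 * (N + 1) * i) (Nat.le_add_right _ _)
        (Nat.add_le_add_left (Nat.mul_le_mul_left _ hi.le) _)
      exact ⟨v, fun _ => ⟨h1, h2, h3⟩⟩
    · rcases M.eq_empty_or_nonempty with h0 | ⟨v, hv⟩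
      · obtain ⟨v, h1, _⟩ := hcon T le_rfl (Nat.le_add_right _ _)
        rw [h0] at h1
        exact absurd h1 (notMem_empty v)
      · exact ⟨v, fun h => absurd h hi⟩
  choose v hv using key
  obtain ⟨i, hi, j, hj, hij, he⟩ := exists_ne_map_eq_of_card_lt_of_maps_to
    (s := range (2 ^ k)) (t := M.image c) (f := fun i => c (v i)) (by rwa [card_range])
    (fun i hi => by
      rw [coe_image]
      exact ⟨v i, (hv i (mem_range.1 (mem_coe.1 hi))).1, rfl⟩)
  rw [mem_range] at hi hj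
  have hvi := hv i hi
  have hvj := hv j hj
  have ai := h _ hvi.1
  have aj := h _ hvj.1
  rw [he] at ai
  rcases lt_or_gt_of_ne hij with hlt | hlt
  · have : 3 * (N + 1) * (i + 1) ≤ 3 * (N + 1) * j := Nat.mul_le_mul_left _ hlt
    have e : 3 * (N + 1) * (i + 1) = 3 * (N + 1) * i + 3 * (N + 1) := by ring
    omega
  · have : 3 * (N + 1) * (j + 1) ≤ 3 * (N + 1) * i := Nat.mul_le_mul_left _ hlt
    have e : 3 * (N + 1) * (j + 1) = 3 * (N + 1) * j + 3 * (N + 1) := by ring
    omega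

end Pool.MTK
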