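import Pool.Agent.H25.MTK.Stp

/-!
# Cuts: a modular partition with two modules. Graphs with no induced path on four vertices.
-/

set_option autoImplicit false

namespace Pool.MTK

open Finset

variable {V : Type}

/-- `B` and `U \ B` are completely joined, or not joined at all. -/
def Cut (R : V → V → Prop) (U : Finset V) : Prop :=
  ∃ B : Finset V, B ⊆ U ∧ (∃ u ∈ U, u ∈ B) ∧ (∃ u ∈ U, u ∉ B) ∧
    ((∀ b ∈ B, ∀ u ∈ U, u ∉ B → R b u) ∨ (∀ b ∈ B, ∀ u ∈ U, u ∉ B → ¬ R b u))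

open Classical in
theorem Cut.modPart {A : V → V → Prop} {U : Finset V} (h : Cut (Ad A) U) : ModPart A 1 U := by
  obtain ⟨B, _, ⟨u, hu, huB⟩, ⟨v, hv, hvB⟩, h⟩ := h
  have hsym : ∀ x y, Ad A x y → Ad A y x := fun x y h => Or.symm h
  refine ⟨fun x => if x ∈ B then 1 else 0, ⟨u, hu, v, hv, ?_⟩, ?_, ?_⟩
  · simp only [if_pos huB, if_neg hvB]
    exact one_ne_zero
  · intro x hx y hy w hw hxy hwx hxw
    by_cases hxB : x ∈ B
    · have hyB : y ∈ B := by
        by_contra h1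
        simp only [if_pos hxB, if_neg h1] at hxy
        exact one_ne_zero hxy
      have hwB : w ∉ B := fun h1 => by
        simp only [if_pos hxB, if_pos h1] at hwx
        exact hwx rfl
      rcases h with h | h
      · exact h y hyB w hw hwB
      · exact absurd hxw (h x hxB w hw hwB)
    · have hyB : y ∉ B := fun h1 => by
        simp only [if_neg hxB, if_pos h1] at hxy
        exact zero_ne_one hxy
      have hwB : w ∈ B := by
        by_contra h1
        simp only [if_neg hxB, if_neg h1] at hwx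
        exact hwx rfl
      rcases h with h | h
      · exact hsym _ _ (h w hwB y hy hyB)
      · exact absurd (hsym _ _ hxw) (h w hwB x hx hxB)
  · intro x hx
    refine card_le_one.2 ?_
    intro a ha b hb
    rw [mem_image] at ha hb
    obtain ⟨a', ha', rfl⟩ := ha
    obtain ⟨b', hb', rfl⟩ := hb
    rw [mem_filter] at ha' hb'
    have h1 := ha'.2.1
    have h2 := hb'.2.1
    by_cases hx : x ∈ B <;> by_cases ha : a' ∈ B <;> by_cases hb : b' ∈ B <;>
      simp only [hx, ha, hb, if_true, if_false, ne_eq, not_true_eq_false] at h1 h2 ⊢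

open Classical in
theorem cog_core {R : V → V → Prop} (hs : ∀ u v, R u v → R v u)
    {U : Finset V} (hP : ∀ a ∈ U, ∀ b ∈ U, ∀ c ∈ U, ∀ d ∈ U, R a b → R b c → R c d →
      R a c ∨ R b d ∨ R a d) {x : V} (hx : x ∈ U) {B₀ : Finset V} (hB₀ : B₀ ⊆ U.erase x)
    (h1 : ∃ u ∈ U.erase x, u ∈ B₀) (h2 : ∃ u ∈ U.erase x, u ∉ B₀)
    (h3 : ∀ b ∈ B₀, ∀ u ∈ U.erase x, u ∉ B₀ → ¬ R b u) : Cut R U := by
  obtain ⟨U', hU'⟩ : ∃ U' : Finset V, U' = U.erase x := ⟨_, rfl⟩
  rw [← hU'] at hB₀ h1 h2 h3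
  have hm : ∀ u, u ∈ U' ↔ u ≠ x ∧ u ∈ U := fun u => by rw [hU', mem_erase]
  by_cases hall : ∀ u ∈ U', R x u
  · refine ⟨{x}, by simpa using hx, ⟨x, hx, mem_singleton_self x⟩, ?_, Or.inl ?_⟩
    · obtain ⟨u, hu, -⟩ := h1
      exact ⟨u, ((hm u).1 hu).2, by simpa using ((hm u).1 hu).1⟩
    · intro b hb u hu hub
      rw [mem_singleton] at hb hub
      rw [hb]
      exact hall u ((hm u).2 ⟨hub, hu⟩)
  push Not at hall
  obtain ⟨u, hu, hxu⟩ := hall
  -- the family of unions of components which contain `u`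
  obtain ⟨Fa, hFa⟩ : ∃ Fa : Finset (Finset V), Fa = U'.powerset.filter fun B =>
      u ∈ B ∧ (∃ v ∈ U', v ∉ B) ∧ ∀ b ∈ B, ∀ v ∈ U', v ∉ B → ¬ R b v := ⟨_, rfl⟩
  have hFm : ∀ B, B ∈ Fa ↔ B ⊆ U' ∧ u ∈ B ∧ (∃ v ∈ U', v ∉ B) ∧
      ∀ b ∈ B, ∀ v ∈ U', v ∉ B → ¬ R b v := by
    intro B
    rw [hFa, mem_filter, mem_powerset]
  have hne : Fa.Nonempty := by
    by_cases hub : u ∈ B₀
    · exact ⟨B₀, (hFm _).2 ⟨hB₀, hub, h2, h3⟩⟩
    · refine ⟨U' \ B₀, (hFm _).2 ⟨sdiff_subset, mem_sdiff.2 ⟨hu, hub⟩, ?_, ?_⟩⟩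
      · obtain ⟨v, hv, hv'⟩ := h1
        exact ⟨v, hv, fun h => (mem_sdiff.1 h).2 hv'⟩
      · intro b hb v hv hvb hR
        rw [mem_sdiff] at hb
        have hv0 : v ∈ B₀ := by
          by_contra h
          exact hvb (mem_sdiff.2 ⟨hv, h⟩)
        exact h3 v hv0 b hb.1 hb.2 (hs _ _ hR)
  obtain ⟨B, hB, hmin⟩ := exists_min_image Fa card hne
  obtain ⟨hBU, huB, ⟨v, hv, hvB⟩, hB3⟩ := (hFm B).1 hB
  by_cases hT : ∃ y ∈ B, R x y
  swap
  · push Not at hT
    refine ⟨B, fun b hb => ((hm b).1 (hBU hb)).2, ⟨u, ((hm u).1 hu).2, huB⟩,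
      ⟨v, ((hm v).1 hv).2, hvB⟩, Or.inr ?_⟩
    intro b hb w hw hwB hR
    by_cases hwx : w = x
    · rw [hwx] at hR
      exact hT b hb (hs _ _ hR)
    · exact hB3 b hb w ((hm w).2 ⟨hwx, hw⟩) hwB hR
  obtain ⟨t, htB, hxt⟩ := hT
  -- an edge from the non-neighbours to the neighbours
  have hedge : ∃ y ∈ B, ¬ R x y ∧ ∃ y' ∈ B, R x y' ∧ R y y' := by
    by_contra hno
    push Not at hno
    have hB' : B.filter (fun y => ¬ R x y) ∈ Fa := by
      refine (hFm _).2 ⟨(filter_subset _ _).trans hBU, mem_filter.2 ⟨huB, hxu⟩, ⟨v, hv, ?_⟩, ?_⟩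
      · exact fun h => hvB (mem_filter.1 h).1
      · intro b hb w hw hwB hR
        rw [mem_filter] at hb
        by_cases hwB' : w ∈ B
        · have hxw : R x w := by
            by_contra h
            exact hwB (mem_filter.2 ⟨hwB', h⟩)
          exact hno b hb.1 hb.2 w hwB' hxw hR
        · exact hB3 b hb.1 w hw hwB' hR
    have h5 := hmin _ hB'
    have h6 : (B.filter fun y => ¬ R x y) ⊂ B := by
      refine ⟨filter_subset _ _, fun h => ?_⟩
      exact (mem_filter.1 (h htB)).2 hxt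
    exact absurd (card_lt_card h6) (not_lt.2 h5)
  obtain ⟨y, hyB, hxy, y', hy'B, hxy', hyy'⟩ := hedge
  have hUy := ((hm y).1 (hBU hyB)).2
  have hUy' := ((hm y').1 (hBU hy'B)).2
  refine ⟨U' \ B, fun b hb => ((hm b).1 (mem_sdiff.1 hb).1).2,
    ⟨v, ((hm v).1 hv).2, mem_sdiff.2 ⟨hv, hvB⟩⟩, ⟨x, hx, fun h => ?_⟩, Or.inr ?_⟩
  · exact ((hm x).1 (mem_sdiff.1 h).1).1 rfl
  · intro z hz w hw hwB hR
    rw [mem_sdiff] at hz
    have hUz := ((hm z).1 hz.1).2
    by_cases hwx : w = x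
    · rw [hwx] at hR
      rcases hP y hUy y' hUy' x hx z hUz hyy' (hs _ _ hxy') (hs _ _ hR) with h | h | h
      · exact hxy (hs _ _ h)
      · exact hB3 y' hy'B z hz.1 hz.2 h
      · exact hB3 y hyB z hz.1 hz.2 h
    · have hwB' : w ∈ B := by
        by_contra h
        exact hwB (mem_sdiff.2 ⟨(hm w).2 ⟨hwx, hw⟩, h⟩)
      exact hB3 w hwB' z hz.1 hz.2 (hs _ _ hR)

/-- A cut of the complement is a cut. -/
theorem Cut.compl {R : V → V → Prop} {U : Finset V} (h : Cut (fun u v => u ≠ v ∧ ¬ R u v) U) :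
    Cut R U := by
  obtain ⟨B, h1, h2, h3, h4⟩ := h
  refine ⟨B, h1, h2, h3, ?_⟩
  rcases h4 with h4 | h4
  · exact Or.inr fun b hb u hu hub => (h4 b hb u hu hub).2
  · refine Or.inl fun b hb u hu hub => ?_
    by_contra h
    refine h4 b hb u hu hub ⟨?_, h⟩
    rintro rfl
    exact hub hb

open Classical in
/-- **Seinsche's theorem.** -/
theorem seinsche {R : V → V → Prop} (hs : ∀ u v, R u v → R v u) (n : ℕ) :
    ∀ U : Finset V, U.card = n + 2 → (∀ a ∈ U, ∀ b ∈ U, ∀ c ∈ U, ∀ d ∈ U, R a b → R b c → R c d →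
      R a c ∨ R b d ∨ R a d) → Cut R U := by
  induction n with
  | zero =>
    intro U hU hP
    obtain ⟨x, y, hxy, rfl⟩ := card_eq_two.1 hU
    refine ⟨{x}, by simp, ⟨x, by simp, by simp⟩, ⟨y, by simp, by simpa using hxy.symm⟩, ?_⟩
    by_cases h : R x y
    · left
      intro b hb u hu hub
      rw [mem_singleton] at hb hub
      rw [mem_insert, mem_singleton] at hu
      rw [hb, hu.resolve_left hub]
      exact h
    · right
      intro b hb u hu hub
      rw [mem_singleton] at hb hub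
      rw [mem_insert, mem_singleton] at hu
      rw [hb, hu.resolve_left hub]
      exact h
  | succ n ih =>
    intro U hU hP
    obtain ⟨x, hx⟩ : U.Nonempty := by
      rw [← card_pos]
      omega
    have hc : (U.erase x).card = n + 2 := by
      rw [card_erase_of_mem hx]
      omega
    have hsub : U.erase x ⊆ U := erase_subset x U
    obtain ⟨B, h1, h2, h3, h4⟩ := ih (U.erase x) hc fun a ha b hb c hc d hd =>
      hP a (hsub ha) b (hsub hb) c (hsub hc) d (hsub hd)
    rcases h4 with h4 | h4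
    · refine Cut.compl (cog_core (R := fun u v => u ≠ v ∧ ¬ R u v) ?_ ?_ hx h1 h2 h3 ?_)
      · exact fun u v h => ⟨h.1.symm, fun h' => h.2 (hs _ _ h')⟩
      · intro a ha b hb c hc d hd hab hbc hcd
        by_contra hno
        push Not at hno
        obtain ⟨e1, e2, e3⟩ := hno
        by_cases hac : a = c
        · exact hcd.2 (hac ▸ e3 (hac ▸ hcd.1))
        by_cases hbd : b = d
        · exact hab.2 (hbd ▸ e3 (hbd ▸ hab.1))
        by_cases had : a = d
        · exact hcd.2 (hs _ _ (had ▸ e1 hac))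
        rcases hP c hc a ha d hd b hb (hs _ _ (e1 hac)) (e3 had) (hs _ _ (e2 hbd)) with h | h | h
        · exact hcd.2 h
        · exact hab.2 h
        · exact hbc.2 (hs _ _ h)
      · intro b hb u hu hub h
        exact h.2 (h4 b hb u hu hub)
    · exact cog_core hs hP hx h1 h2 h3 h4

open Classical in
/-- A graph with no induced path on four vertices has a modular partition with two modules. -/
theorem p4free_modPart {A : V → V → Prop}
    (hP : ∀ a b c d : V, a ≠ c → a ≠ d → b ≠ d → Ad A a b → Ad A b c → Ad A c d →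
      Ad A a c ∨ Ad A b d ∨ Ad A a d) (U : Finset V) (hU : 2 ≤ U.card) : ModPart A 1 U := by
  refine Cut.modPart (seinsche (R := Ad A) (fun u v h => Or.symm h) (U.card - 2) U (by omega) ?_)
  · intro a _ b _ c _ d _ hab hbc hcd
    by_cases hac : a = c
    · rw [hac]
      exact Or.inr (Or.inr hcd)
    by_cases hbd : b = d
    · rw [← hbd]
      exact Or.inr (Or.inr hab)
    by_cases had : a = d
    · rw [had]
      exact Or.inl (Or.symm hcd)
    exact hP a b c d hac had hbd hab hbc hcd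

end Pool.MTK
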