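import Pool.Agent.H25.MTK.Cog

/-!
# Quasi-transitive digraphs

A strongly connected quasi-transitive digraph with at least two vertices is completely joined
across some cut (Bang-Jensen and Huang).
-/

set_option autoImplicit false

namespace Pool.MTK

open Finset Relation

variable {V : Type}

/-- `v` can be reached from `u` inside `U`. -/
def Rch (A : V → V → Prop) (U : Finset V) (u v : V) : Prop :=
  ReflTransGen (fun x y => A x y ∧ x ∈ U ∧ y ∈ U) u v

/-- If `y` can be reached from `a`, and not conversely, then there is an arc from `a` to `y`. -/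
theorem qt_one {A : V → V → Prop} (hq : ∀ u v w, A u v → A v w → u ≠ w → Ad A u w) {U : Finset V}
    {a y : V} (h : Rch A U a y) : ¬ Rch A U y a → A a y := by
  induction h with
  | refl => exact fun h => absurd ReflTransGen.refl h
  | tail h1 h2 ih =>
    rename_i y' y
    intro hya
    by_cases hy'a : Rch A U y' a
    · -- all the vertices between `a` and `y'` dominate `y`
      have : ∀ z, Rch A U z y' → A z y := by
        intro z hz
        induction hz using ReflTransGen.head_induction_on with
        | refl => exact h2.1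
        | head h3 h4 ih2 =>
          rename_i z z'
          have hza : Rch A U z a := ReflTransGen.trans (ReflTransGen.head h3 h4) hy'a
          have hzy : z ≠ y := by
            rintro rfl
            exact hya hza
          rcases hq _ _ _ h3.1 ih2 hzy with h | h
          · exact h
          · exact absurd (ReflTransGen.head ⟨h, h2.2.2, h3.2.1⟩ hza) hya
      exact this a h1
    · have h3 := ih hy'a
      have hay : a ≠ y := by
        rintro rfl
        exact hya ReflTransGen.refl
      have haU : a ∈ U := by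
        rcases ReflTransGen.cases_head h1 with h | ⟨c, h, -⟩
        · rw [h]
          exact h2.2.1
        · exact h.2.1
      rcases hq _ _ _ h3 h2.1 hay with h | h
      · exact h
      · exact absurd (ReflTransGen.single ⟨h, h2.2.2, haU⟩) hya

open Classical in
theorem path_out {A : V → V → Prop} {U : Finset V} {x y : V} (h : Rch A U x y) :
    y = x ∨ ∃ i ∈ U.erase x, A x i ∧ Rch A (U.erase x) i y := by
  induction h with
  | refl => exact Or.inl rfl
  | tail h1 h2 ih =>
    rename_i y' y
    by_cases hy : y = x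
    · exact Or.inl hy
    have hyU : y ∈ U.erase x := mem_erase.2 ⟨hy, h2.2.2⟩
    by_cases hy' : y' = x
    · exact Or.inr ⟨y, hyU, hy' ▸ h2.1, ReflTransGen.refl⟩
    · obtain ⟨i, hi, h3, h4⟩ := ih.resolve_left hy'
      exact Or.inr ⟨i, hi, h3, h4.tail ⟨h2.1, mem_erase.2 ⟨hy', h2.2.1⟩, hyU⟩⟩

open Classical in
theorem path_in {A : V → V → Prop} {U : Finset V} {x y : V} (h : Rch A U y x) :
    y = x ∨ ∃ j ∈ U.erase x, A j x ∧ Rch A (U.erase x) y j := by
  induction h using ReflTransGen.head_induction_on with
  | refl => exact Or.inl rfl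
  | head h1 h2 ih =>
    rename_i y y'
    by_cases hy : y = x
    · exact Or.inl hy
    have hyU : y ∈ U.erase x := mem_erase.2 ⟨hy, h1.2.1⟩
    by_cases hy' : y' = x
    · exact Or.inr ⟨y, hyU, hy' ▸ h1.1, ReflTransGen.refl⟩
    · obtain ⟨j, hj, h3, h4⟩ := ih.resolve_left hy'
      exact Or.inr ⟨j, hj, h3, ReflTransGen.head ⟨h1.1, hyU, mem_erase.2 ⟨hy', h1.2.2⟩⟩ h4⟩

open Classical in
/-- If `x` is not adjacent to some other vertex, then the rest is strongly connected. -/
theorem qt_del {A : V → V → Prop} (hq : ∀ u v w, A u v → A v w → u ≠ w → Ad A u w) {U : Finset V}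
    (hS : Strong A U) {x : V} (hx : x ∈ U) {y : V} (hy : y ∈ U.erase x) (hxy : ¬ Ad A x y) :
    Strong A (U.erase x) := by
  have hyx := (mem_erase.1 hy).1
  have hyU := (mem_erase.1 hy).2
  -- comparable to `y` means in the component of `y`
  have key1 : ∀ b ∈ U.erase x, Rch A (U.erase x) b y → Rch A (U.erase x) y b := by
    intro b hb hby
    by_contra hyb
    obtain ⟨i, hi, h1, h2⟩ := (path_out (hS x hx b (mem_erase.1 hb).2)).resolve_left
      (mem_erase.1 hb).1
    have h3 : ¬ Rch A (U.erase x) y i := fun h => hyb (h.trans h2)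
    have h4 := qt_one hq (h2.trans hby) h3
    exact hxy (hq _ _ _ h1 h4 hyx.symm)
  have key2 : ∀ b ∈ U.erase x, Rch A (U.erase x) y b → Rch A (U.erase x) b y := by
    intro b hb hyb
    by_contra hby
    obtain ⟨j, hj, h1, h2⟩ := (path_in (hS b (mem_erase.1 hb).2 x hx)).resolve_left
      (mem_erase.1 hb).1
    have h3 : ¬ Rch A (U.erase x) j y := fun h => hby (h2.trans h)
    have h4 := qt_one hq (hyb.trans h2) h3
    exact hxy (Or.symm (hq _ _ _ h4 h1 hyx))
  have key3 : ∀ b ∈ U.erase x, Rch A (U.erase x) b y := by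
    intro b hb
    by_contra hby
    obtain ⟨i, hi, h1, h2⟩ := (path_out (hS x hx y hyU)).resolve_left hyx
    obtain ⟨j, hj, h3, h4⟩ := (path_in (hS b (mem_erase.1 hb).2 x hx)).resolve_left
      (mem_erase.1 hb).1
    by_cases hij : j = i
    · rw [hij] at h4
      exact hby (h4.trans h2)
    rcases hq _ _ _ h3 h1 hij with h | h
    · exact hby ((h4.tail ⟨h, hj, hi⟩).trans h2)
    · have h5 : Rch A (U.erase x) y j := (key1 i hi h2).tail ⟨h, hi, hj⟩
      exact hby (h4.trans (key2 j hj h5))
  intro u hu v hv
  exact (key3 u hu).trans (key1 v hv (key3 v hv))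

open Classical in
/-- **Bang-Jensen and Huang.** -/
theorem qt_cut {A : V → V → Prop}
    (hq : ∀ u v w, A u v → A v w → u ≠ w → Ad A u w) (n : ℕ) :
    ∀ U : Finset V, U.card = n + 2 → Strong A U →
      ∃ B : Finset V, B ⊆ U ∧ (∃ u ∈ U, u ∈ B) ∧ (∃ u ∈ U, u ∉ B) ∧
        ∀ b ∈ B, ∀ u ∈ U, u ∉ B → Ad A b u := by
  have hsym : ∀ x y, Ad A x y → Ad A y x := fun x y h => Or.symm h
  induction n with
  | zero =>
    intro U hU hS
    obtain ⟨x, y, hxy, rfl⟩ := card_eq_two.1 hU
    refine ⟨{x}, by simp, ⟨x, by simp, by simp⟩, ⟨y, by simp, by simpa using hxy.symm⟩, ?_⟩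
    obtain ⟨i, hi, h1, -⟩ := (path_out (hS x (by simp) y (by simp))).resolve_left hxy.symm
    have hi' : i = y := by
      rw [mem_erase, mem_insert, mem_singleton] at hi
      exact hi.2.resolve_left hi.1
    intro b hb u hu hub
    rw [mem_singleton] at hb hub
    rw [mem_insert, mem_singleton] at hu
    rw [hb, hu.resolve_left hub, ← hi']
    exact Or.inl h1
  | succ n ih =>
    intro U hU hS
    obtain ⟨x, hx⟩ : U.Nonempty := by
      rw [← card_pos]
      omega
    have hc : (U.erase x).card = n + 2 := by
      rw [card_erase_of_mem hx]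
      omega
    obtain ⟨U', hU'⟩ : ∃ U' : Finset V, U' = U.erase x := ⟨_, rfl⟩
    have hm : ∀ u, u ∈ U' ↔ u ≠ x ∧ u ∈ U := fun u => by rw [hU', mem_erase]
    by_cases hall : ∀ u ∈ U', Ad A x u
    · refine ⟨{x}, by simpa using hx, ⟨x, hx, mem_singleton_self x⟩, ?_, ?_⟩
      · obtain ⟨u, hu⟩ : (U.erase x).Nonempty := by
          rw [← card_pos]
          omega
        exact ⟨u, (mem_erase.1 hu).2, by simpa using (mem_erase.1 hu).1⟩
      · intro b hb u hu hub
        rw [mem_singleton] at hb hub
        rw [hb]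
        exact hall u ((hm u).2 ⟨hub, hu⟩)
    push Not at hall
    obtain ⟨y, hy, hxy⟩ := hall
    have hS' : Strong A U' := by
      rw [hU'] at hy ⊢
      exact qt_del hq hS hx hy hxy
    rw [← hU'] at hc
    obtain ⟨B, hBU, h1, h2, h3⟩ := ih U' hc hS'
    -- an out-neighbour of `x`
    obtain ⟨a, ha, hxa, -⟩ := (path_out (hS x hx y ((hm y).1 hy).2)).resolve_left ((hm y).1 hy).1
    rw [← hU'] at ha
    -- chains of non-adjacent vertices
    obtain ⟨C, hC⟩ : ∃ C : V → V → Prop, C = ReflTransGen (fun u v => u ∈ U' ∧ v ∈ U' ∧ ¬ Ad A u v) :=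
      ⟨_, rfl⟩
    have hCs : ∀ u v, C u v → C v u := by
      rw [hC]
      intro u v h
      induction h with
      | refl => exact ReflTransGen.refl
      | tail h4 h5 ih2 => exact ReflTransGen.head ⟨h5.2.1, h5.1, fun h' => h5.2.2 (hsym _ _ h')⟩ ih2
    -- `B` is a union of classes
    have hCB : ∀ u v, C u v → (u ∈ B ↔ v ∈ B) := by
      rw [hC]
      intro u v h
      induction h with
      | refl => exact Iff.rfl
      | tail h4 h5 ih2 =>
        rename_i v v'
        rw [ih2]
        constructor
        · intro h6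
          by_contra h7
          exact h5.2.2 (h3 v h6 v' h5.2.1 h7)
        · intro h6
          by_contra h7
          exact h5.2.2 (hsym _ _ (h3 v' h6 v h5.1 h7))
    -- some vertex is outside of the class of `a`
    obtain ⟨b, hb, hab⟩ : ∃ b ∈ U', ¬ C a b := by
      by_cases haB : a ∈ B
      · obtain ⟨b, hb, hbB⟩ := h2
        exact ⟨b, hb, fun h => hbB ((hCB a b h).1 haB)⟩
      · obtain ⟨b, hb, hbB⟩ := h1
        exact ⟨b, hb, fun h => haB ((hCB a b h).2 hbB)⟩
    -- an arc which leaves the class of `a`
    obtain ⟨κ, hκ, ω, hω, haκ, haω, hκω⟩ : ∃ κ ∈ U', ∃ ω ∈ U', C a κ ∧ ¬ C a ω ∧ A κ ω := by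
      by_contra hno
      push Not at hno
      have : ∀ v, Rch A U' a v → C a v := by
        intro v hv
        induction hv with
        | refl =>
          rw [hC]
        | tail h4 h5 ih2 =>
          rename_i v v'
          by_contra h6
          exact hno v h5.2.1 v' h5.2.2 ih2 h6 h5.1
      exact hab (this b (hS' a ha b hb))
    -- vertices in distinct classes are adjacent
    have hadj : ∀ u ∈ U', ∀ v ∈ U', ¬ C u v → Ad A u v := by
      intro u hu v hv h
      by_contra h'
      rw [hC] at h
      exact h (ReflTransGen.single ⟨hu, hv, h'⟩)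
    have hCt : ∀ u v w, C u v → C v w → C u w := by
      rw [hC]
      exact fun u v w h h' => h.trans h'
    -- `κ` dominates the class of `ω`
    have hκ2 : ∀ v, C ω v → A κ v := by
      intro v hv
      rw [hC] at hv
      induction hv with
      | refl => exact hκω
      | tail h4 h5 ih2 =>
        rename_i v v'
        have h7 : C ω v' := by
          rw [hC]
          exact h4.tail h5
        have h6 : ¬ C κ v' := fun h => haω (hCt _ _ _ (hCt _ _ _ haκ h) (hCs _ _ h7))
        by_cases h8 : v' = v
        · rw [h8]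
          exact ih2
        rcases hadj κ hκ v' h5.2.1 h6 with h | h
        · exact h
        · exact absurd (hsym _ _ (hq _ _ _ h ih2 h8)) h5.2.2
    -- the class of `a` dominates the class of `ω`
    have hκ3 : ∀ v, C ω v → ∀ z, C κ z → A z v := by
      intro v hv z hz
      have hvU : v ∈ U' := by
        rw [hC] at hv
        rcases ReflTransGen.cases_tail hv with h | ⟨c, -, h⟩
        · rw [h]
          exact hω
        · exact h.2.1
      rw [hC] at hz
      induction hz with
      | refl => exact hκ2 v hv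
      | tail h4 h5 ih2 =>
        rename_i z z'
        have h7 : C κ z' := by
          rw [hC]
          exact h4.tail h5
        have h6 : ¬ C z' v := fun h =>
          haω (hCt _ _ _ (hCt _ _ _ (hCt _ _ _ haκ h7) h) (hCs _ _ hv))
        by_cases h8 : z = z'
        · rw [← h8]
          exact ih2
        rcases hadj z' h5.2.1 v hvU h6 with h | h
        · exact h
        · exact absurd (hq _ _ _ ih2 h h8) h5.2.2
    refine ⟨U'.filter fun v => C ω v, fun v hv => ((hm v).1 (mem_filter.1 hv).1).2,
      ⟨ω, ((hm ω).1 hω).2, mem_filter.2 ⟨hω, ?_⟩⟩, ⟨x, hx, fun h => ?_⟩, ?_⟩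
    · rw [hC]
    · exact ((hm x).1 (mem_filter.1 h).1).1 rfl
    · intro v hv u hu huv
      rw [mem_filter] at hv
      by_cases hux : u = x
      · rw [hux]
        have h5 := hκ3 v hv.2 a (hCs _ _ haκ)
        exact hsym _ _ (hq _ _ _ hxa h5 ((hm v).1 hv.1).1.symm)
      · have huU : u ∈ U' := (hm u).2 ⟨hux, hu⟩
        refine hadj v hv.1 u huU fun h => huv (mem_filter.2 ⟨huU, hCt _ _ _ hv.2 h⟩)

/-- A strongly connected quasi-transitive digraph has a modular partition with two modules. -/
theorem qt_modPart {A : V → V → Prop}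
    (hq : ∀ u v w, A u v → A v w → u ≠ w → Ad A u w) (U : Finset V) (hU : 2 ≤ U.card)
    (hS : Strong A U) : ModPart A 1 U := by
  obtain ⟨B, h1, h2, h3, h4⟩ := qt_cut hq (U.card - 2) U (by omega) hS
  exact Cut.modPart ⟨B, h1, h2, h3, Or.inl h4⟩

end Pool.MTK
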