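import Pool.Agent.H25.MTK.Stp

/-!
# The descent

`Inv`: the state of the descent. `main`: Mader's statement for the digraphs whose strongly connected
induced subdigraphs have modular partitions.
-/

set_option autoImplicit false

namespace Pool.MTK

open Finset

variable {V : Type} [Fintype V]

open Classical in
/-- **The state of the descent**: the current set `U`, the escapes `E`, the vertices `Rr` which are
adjacent to everything below them (with their layers `lam`), the rich vertices `P`. -/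
structure Inv (A : V → V → Prop) (k N Θ : ℕ) (U E Rr : Finset V) (P : List V) (lam : V → ℕ) :
    Prop where
  e_dis : ∀ w ∈ E, w ∉ U
  p_dis : ∀ w ∈ P, w ∉ U
  r_dis : ∀ w ∈ Rr, w ∉ U
  esc : ∀ w ∈ E, ∀ z ∈ U, N < (univ.filter fun y => A w y ∧ A y z).card
  p_nd : P.Nodup
  p_pw : P.Pairwise (Rob A (2 * k) N)
  p_rob : ∀ r ∈ P, ∀ z ∈ U, Rob A (2 * k) N r z
  r_adj : ∀ w ∈ Rr, ∀ z ∈ U, Ad A w z
  r_clq : ∀ w ∈ Rr, ∀ x ∈ Rr, lam w ≠ lam x → Ad A w x
  r_lam : ∀ w ∈ Rr, U.card < lam w
  r_fib : ∀ z ∈ U, ∀ i, ((Rr.filter fun w => A z w).filter fun w => lam w = i).card ≤ Θ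
  out : ∀ z ∈ U, ∀ w, A z w → w ∈ U ∨ w ∈ E ∨ w ∈ P ∨ w ∈ Rr
  e_few : ∀ z ∈ U, (E.filter fun w => A z w).card ≤ N

section

variable {A : V → V → Prop} {k N Θ : ℕ} {U E Rr : Finset V} {P : List V} {lam : V → ℕ}

/-- Restriction to a closed subset. -/
theorem Inv.closed (h : Inv A k N Θ U E Rr P lam) {W : Finset V} (hW : W ⊆ U)
    (hc : ∀ z ∈ W, ∀ w ∈ U, A z w → w ∈ W) : Inv A k N Θ W E Rr P lam where
  e_dis := fun w hw hwW => h.e_dis w hw (hW hwW)
  p_dis := fun w hw hwW => h.p_dis w hw (hW hwW)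
  r_dis := fun w hw hwW => h.r_dis w hw (hW hwW)
  esc := fun w hw z hz => h.esc w hw z (hW hz)
  p_nd := h.p_nd
  p_pw := h.p_pw
  p_rob := fun r hr z hz => h.p_rob r hr z (hW hz)
  r_adj := fun w hw z hz => h.r_adj w hw z (hW hz)
  r_clq := h.r_clq
  r_lam := fun w hw => (card_le_card hW).trans_lt (h.r_lam w hw)
  r_fib := fun z hz => h.r_fib z (hW hz)
  out := fun z hz w hzw => (h.out z (hW hz) w hzw).imp (fun hw => hc z hz w hw hzw) id
  e_few := fun z hz => h.e_few z (hW hz)

open Classical in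
/-- The out-degree in `U`. -/
theorem Inv.deg (h : Inv A k N Θ U E Rr P lam) (hN : k + k * k * (2 * k) ≤ N)
    (hT : ¬ HasTT k A) {z : V} (hz : z ∈ U) {d : ℕ}
    (hd : d + N + k + Θ * 2 ^ k ≤ (univ.filter fun w => A z w).card) :
    d ≤ (U.filter fun w => A z w).card := by
  have hP : P.length < k := by
    by_contra hcon
    exact hT (asm hN P (not_lt.1 hcon) h.p_nd h.p_pw)
  have hR : (Rr.filter fun w => A z w).card ≤ Θ * 2 ^ k := by
    refine (card_le_mul_card_image (f := lam) _ Θ fun i _ => h.r_fib z hz i).trans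
      (Nat.mul_le_mul_left _ ?_)
    by_contra hcon
    rw [not_le] at hcon
    have key : ∀ i, ∃ w, i ∈ (Rr.filter fun w => A z w).image lam → w ∈ Rr ∧ lam w = i := by
      intro i
      by_cases hi : i ∈ (Rr.filter fun w => A z w).image lam
      · rw [mem_image] at hi
        obtain ⟨w, hw, hwi⟩ := hi
        exact ⟨w, fun _ => ⟨(mem_filter.1 hw).1, hwi⟩⟩
      · exact ⟨z, fun h => absurd h hi⟩
    choose g hg using key
    refine hT (tour (ℓ := 2 * k) (N := N) hN (((Rr.filter fun w => A z w).image lam).image g)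
      ?_ ?_)
    · rw [card_image_of_injOn]
      · exact hcon.le
      · intro i hi j hj hij
        rw [← (hg i hi).2, ← (hg j hj).2, hij]
    · intro u hu v hv huv
      rw [mem_image] at hu hv
      obtain ⟨i, hi, rfl⟩ := hu
      obtain ⟨j, hj, rfl⟩ := hv
      have hij : lam (g i) ≠ lam (g j) := by
        rw [(hg i hi).2, (hg j hj).2]
        rintro rfl
        exact huv rfl
      exact (h.r_clq _ (hg i hi).1 _ (hg j hj).1 hij).imp (fun h => rob_arc h _ _)
        fun h => rob_arc h _ _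
  have hsub : (univ.filter fun w => A z w) ⊆ (U.filter fun w => A z w) ∪
      ((E.filter fun w => A z w) ∪ (P.toFinset ∪ (Rr.filter fun w => A z w))) := by
    intro w hw
    have hzw := (mem_filter.1 hw).2
    rw [mem_union, mem_union, mem_union, mem_filter, mem_filter, mem_filter, List.mem_toFinset]
    rcases h.out z hz w hzw with h1 | h1 | h1 | h1
    · exact Or.inl ⟨h1, hzw⟩
    · exact Or.inr (Or.inl ⟨h1, hzw⟩)
    · exact Or.inr (Or.inr (Or.inl h1))
    · exact Or.inr (Or.inr (Or.inr ⟨h1, hzw⟩))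
  have c1 := card_le_card hsub
  have c2 := card_union_le (U.filter fun w => A z w)
    ((E.filter fun w => A z w) ∪ (P.toFinset ∪ (Rr.filter fun w => A z w)))
  have c3 := card_union_le (E.filter fun w => A z w) (P.toFinset ∪ (Rr.filter fun w => A z w))
  have c4 := card_union_le P.toFinset (Rr.filter fun w => A z w)
  have c5 := List.toFinset_card_le P
  have c6 := h.e_few z hz
  omega

open Classical in
/-- **The step of the descent.** -/
theorem Inv.step {L Δ θ₀ : ℕ} (hirr : ∀ v, ¬ A v v) (hk : 1 ≤ k)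
    (hN : k + k * k * (2 * k) ≤ N)
    (hL : 4 * N + 4 * k + 2 ≤ L) (hT : ¬ HasTT k A) (h : Inv A k N θ₀ U E Rr P lam)
    (hθ₀ : Δ * (2 ^ k * L) + N + 3 * (N + 1) * 2 ^ k ≤ θ₀) (hU : U.Nonempty)
    (hdeg : ∀ u ∈ U, (Δ + 1) * (2 ^ k * L) < (U.filter fun w => A u w).card)
    (hp : ModPart A Δ U) :
    ∃ (U' E' Rr' : Finset V) (P' : List V) (lam' : V → ℕ), U'.card < U.card ∧ U'.Nonempty ∧
      Inv A k N θ₀ U' E' Rr' P' lam' := by
  obtain ⟨p, ⟨u₁, hu₁, u₂, hu₂, hne⟩, hmod, hΔ⟩ := hp
  obtain ⟨j, θ, Z, hθ, hZ, hZL, hZn⟩ := sink hk hN hL hT hU hdeg hΔ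
  obtain ⟨R, hR⟩ : ∃ R, R = Rm A U p j := ⟨_, rfl⟩
  rw [← hR] at hZ hZn
  have hZm : ∀ z, z ∈ Z ↔ z ∈ U ∧ p z = j ∧ (R.filter fun w => A z w).card ≤ θ := by
    intro z
    rw [hZ, mem_filter, mem_filter, and_assoc]
  have hRm : ∀ w, w ∈ R → w ∈ U ∧ p w ≠ j ∧ ∀ u ∈ U, p u = j → Ad A u w := by
    intro w hw
    rw [hR] at hw
    unfold Rm at hw
    rw [mem_filter] at hw
    exact hw
  -- the escapes
  obtain ⟨E', hE'⟩ : ∃ E' : Finset V, E' = E ∪ (U.filter fun v => p v = j ∧ v ∉ Z) := ⟨_, rfl⟩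
  have hEm : ∀ w, w ∈ E' ↔ w ∈ E ∨ (w ∈ U ∧ p w = j ∧ w ∉ Z) := by
    intro w
    rw [hE', mem_union, mem_filter]
  have hesc : ∀ w ∈ E', ∀ z ∈ Z, N < (univ.filter fun y => A w y ∧ A y z).card := by
    intro w hw z hz
    rw [hZm] at hz
    rw [hEm] at hw
    rcases hw with hw | ⟨w1, w2, w3⟩
    · exact h.esc w hw z hz.1
    · have h1 := hZn w w1 w2 w3
      have h2 : ((R.filter fun y => A w y) \ (R.filter fun y => A z y)) ⊆
          univ.filter fun y => A w y ∧ A y z := by
        intro y hy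
        rw [mem_sdiff, mem_filter, mem_filter] at hy
        have h3 := (hRm y hy.1.1).2.2 z hz.1 hz.2.1
        exact mem_filter.2 ⟨mem_univ _, hy.1.2, h3.resolve_left fun h' => hy.2 ⟨hy.1.1, h'⟩⟩
      have h4 := card_le_card h2
      have h5 := le_card_sdiff (R.filter fun y => A z y) (R.filter fun y => A w y)
      have h6 := hz.2.2
      omega
  have hE'Z : ∀ w ∈ E', w ∉ Z := by
    intro w hw hwZ
    rcases (hEm w).1 hw with hw | hw
    · exact h.e_dis w hw ((hZm w).1 hwZ).1
    · exact hw.2.2 hwZ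
  -- rich vertices
  obtain ⟨Q, hQ⟩ : ∃ Q : Finset V, Q = Z.filter fun z => N < (E'.filter fun w => A z w).card :=
    ⟨_, rfl⟩
  have hQm : ∀ z, z ∈ Q ↔ z ∈ Z ∧ N < (E'.filter fun w => A z w).card := by
    intro z
    rw [hQ, mem_filter]
  have hrich : ∀ z ∈ Q, ∀ z' ∈ Z, Rob A (2 * k) N z z' := by
    intro z hz z' hz' F hF
    obtain ⟨w, hw, hwF⟩ := exists_mem_notMem_of_card_lt_card (hF.trans_lt ((hQm z).1 hz).2)
    rw [mem_filter] at hw
    obtain ⟨y, hy, hyF⟩ := exists_mem_notMem_of_card_lt_card (hF.trans_lt (hesc w hw.1 z' hz'))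
    rw [mem_filter] at hy
    refine ⟨[w, y], ?_, ?_, ?_, ?_⟩
    · show 2 ≤ 2 * k
      omega
    · rw [List.nodup_cons]
      refine ⟨?_, List.nodup_singleton y⟩
      rw [List.mem_singleton]
      rintro rfl
      exact hirr _ hy.2.1
    · intro x hx
      rcases List.mem_cons.1 hx with rfl | hx
      · exact hwF
      · rw [List.mem_singleton] at hx
        rw [hx]
        exact hyF
    · simpa using ⟨hw.2, hy.2.1, hy.2.2⟩
  obtain ⟨P', hP'⟩ : ∃ P' : List V, P' = P ++ Q.toList := ⟨_, rfl⟩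
  have hPm : ∀ w, w ∈ P' ↔ w ∈ P ∨ w ∈ Q := by
    intro w
    rw [hP', List.mem_append, mem_toList]
  have hPnd : P'.Nodup := by
    rw [hP', List.nodup_append]
    refine ⟨h.p_nd, Q.nodup_toList, ?_⟩
    intro a ha b hb hab
    rw [mem_toList] at hb
    rw [hab] at ha
    exact h.p_dis b ha ((hZm b).1 ((hQm b).1 hb).1).1
  have hPpw : P'.Pairwise (Rob A (2 * k) N) := by
    rw [hP', List.pairwise_append]
    refine ⟨h.p_pw, ?_, ?_⟩
    · rw [List.pairwise_iff_getElem]
      intro i i' hi hi' _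
      have m1 := List.getElem_mem hi
      have m2 := List.getElem_mem hi'
      rw [mem_toList] at m1 m2
      exact hrich _ m1 _ ((hQm _).1 m2).1
    · intro a ha b hb
      rw [mem_toList] at hb
      exact h.p_rob a ha b ((hZm b).1 ((hQm b).1 hb).1).1
  have hPl : P'.length < k := by
    by_contra hcon
    exact hT (asm hN P' (not_lt.1 hcon) hPnd hPpw)
  have hQc : Q.card < k := by
    rw [hP', List.length_append, length_toList] at hPl
    omega
  -- the new state
  obtain ⟨U', hU'⟩ : ∃ U' : Finset V, U' = Z \ Q := ⟨_, rfl⟩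
  have hUm : ∀ z, z ∈ U' ↔ z ∈ Z ∧ z ∉ Q := by
    intro z
    rw [hU', mem_sdiff]
  have hU'U : ∀ z ∈ U', z ∈ U ∧ p z = j := fun z hz =>
    ⟨((hZm z).1 ((hUm z).1 hz).1).1, ((hZm z).1 ((hUm z).1 hz).1).2.1⟩
  obtain ⟨lam', hlam'⟩ : ∃ lam' : V → ℕ, lam' = fun w => if w ∈ R then U.card else lam w :=
    ⟨_, rfl⟩
  have l1 : ∀ w ∈ R, lam' w = U.card := fun w hw => by
    rw [hlam']
    simp only
    rw [if_pos hw]
  have l2 : ∀ w ∈ Rr, w ∉ R ∧ lam' w = lam w := fun w hw => by
    have : w ∉ R := fun hwR => h.r_dis w hw (hRm w hwR).1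
    rw [hlam']
    simp only
    rw [if_neg this]
    exact ⟨this, rfl⟩
  have hcardU : U'.card < U.card := by
    refine card_lt_card ⟨fun z hz => (hU'U z hz).1, fun hsub => hne ?_⟩
    rw [(hU'U u₁ (hsub hu₁)).2, (hU'U u₂ (hsub hu₂)).2]
  refine ⟨U', E', Rr ∪ R, P', lam', hcardU, ?_, ?_⟩
  · rw [hU', ← card_pos]
    have := le_card_sdiff Q Z
    omega
  · exact
      { e_dis := fun w hw hwU => hE'Z w hw ((hUm w).1 hwU).1
        p_dis := fun w hw hwU => by
          rcases (hPm w).1 hw with hw | hw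
          · exact h.p_dis w hw (hU'U w hwU).1
          · exact ((hUm w).1 hwU).2 hw
        r_dis := fun w hw hwU => by
          rcases mem_union.1 hw with hw | hw
          · exact h.r_dis w hw (hU'U w hwU).1
          · exact (hRm w hw).2.1 (hU'U w hwU).2
        esc := fun w hw z hz => hesc w hw z ((hUm z).1 hz).1
        p_nd := hPnd
        p_pw := hPpw
        p_rob := fun r hr z hz => by
          rcases (hPm r).1 hr with hr | hr
          · exact h.p_rob r hr z (hU'U z hz).1
          · exact hrich r hr z ((hUm z).1 hz).1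
        r_adj := fun w hw z hz => by
          rcases mem_union.1 hw with hw | hw
          · exact h.r_adj w hw z (hU'U z hz).1
          · exact ((hRm w hw).2.2 z (hU'U z hz).1 (hU'U z hz).2).symm
        r_clq := fun w hw x hx hne' => by
          rcases mem_union.1 hw with hw | hw
          · rcases mem_union.1 hx with hx | hx
            · rw [(l2 w hw).2, (l2 x hx).2] at hne'
              exact h.r_clq w hw x hx hne'
            · exact h.r_adj w hw x (hRm x hx).1
          · rcases mem_union.1 hx with hx | hx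
            · exact (h.r_adj x hx w (hRm w hw).1).symm
            · rw [l1 w hw, l1 x hx] at hne'
              exact absurd rfl hne'
        r_lam := fun w hw => by
          rcases mem_union.1 hw with hw | hw
          · rw [(l2 w hw).2]
            exact hcardU.trans (h.r_lam w hw)
          · rw [l1 w hw]
            exact hcardU
        r_fib := fun z hz i => by
          rcases eq_or_ne i U.card with hi | hi
          · refine (card_le_card (t := R.filter fun w => A z w) fun w hw => ?_).trans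
              ((((hZm z).1 ((hUm z).1 hz).1).2.2).trans (hθ.trans hθ₀))
            rw [mem_filter, mem_filter, mem_union] at hw
            rw [mem_filter]
            refine ⟨hw.1.1.resolve_left fun hwr => ?_, hw.1.2⟩
            have h1 := h.r_lam w hwr
            have h2 := hw.2
            rw [(l2 w hwr).2, hi] at h2
            omega
          · refine (card_le_card fun w hw => ?_).trans (h.r_fib z (hU'U z hz).1 i)
            rw [mem_filter, mem_filter, mem_union] at hw
            rw [mem_filter, mem_filter]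
            have h1 : w ∈ Rr := hw.1.1.resolve_right fun hwR => hi (by rw [← hw.2, l1 w hwR])
            exact ⟨⟨h1, hw.1.2⟩, by rw [← (l2 w h1).2]; exact hw.2⟩
        out := fun z hz w hzw => by
          obtain ⟨hzU, hzj⟩ := hU'U z hz
          rcases h.out z hzU w hzw with hw | hw | hw | hw
          · by_cases hwj : p w = j
            · by_cases hwZ : w ∈ Z
              · by_cases hwQ : w ∈ Q
                · exact Or.inr (Or.inr (Or.inl ((hPm w).2 (Or.inr hwQ))))
                · exact Or.inl ((hUm w).2 ⟨hwZ, hwQ⟩)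
              · exact Or.inr (Or.inl ((hEm w).2 (Or.inr ⟨hw, hwj, hwZ⟩)))
            · refine Or.inr (Or.inr (Or.inr (mem_union.2 (Or.inr ?_))))
              rw [hR]
              unfold Rm
              rw [mem_filter]
              refine ⟨hw, hwj, fun u hu huj => hmod z hzU u hu w hw (hzj.trans huj.symm) ?_
                (Or.inl hzw)⟩
              rw [hzj]
              exact hwj
          · exact Or.inr (Or.inl ((hEm w).2 (Or.inl hw)))
          · exact Or.inr (Or.inr (Or.inl ((hPm w).2 (Or.inl hw))))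
          · exact Or.inr (Or.inr (Or.inr (mem_union.2 (Or.inl hw))))
        e_few := fun z hz => by
          by_contra hcon
          exact ((hUm z).1 hz).2 ((hQm z).2 ⟨((hUm z).1 hz).1, not_le.1 hcon⟩) }

end

omit [Fintype V] in
/-- Without a proper closed subset the set is strongly connected. -/
theorem strong_of {A : V → V → Prop} {U : Finset V}
    (h : ∀ W : Finset V, W ⊆ U → W.Nonempty → (∀ z ∈ W, ∀ w ∈ U, A z w → w ∈ W) → W = U) :
    Strong A U := by
  classical
  intro u hu v hv
  have h1 := h (U.filter fun w => Relation.ReflTransGen (fun x y => A x y ∧ x ∈ U ∧ y ∈ U) u w)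
    (filter_subset _ _) ⟨u, mem_filter.2 ⟨hu, Relation.ReflTransGen.refl⟩⟩ (fun z hz w hw hzw => by
      rw [mem_filter] at hz ⊢
      exact ⟨hw, hz.2.tail ⟨hzw, hz.1, hw⟩⟩)
  rw [← h1] at hv
  exact (mem_filter.1 hv).2

open Classical in
/-- **Mader's statement** for digraphs with modular partitions. -/
theorem main (k Δ : ℕ) : ∃ h : ℕ, ∀ (V : Type) [Fintype V] [Nonempty V] (A : V → V → Prop),
    (∀ v, ¬ A v v) → (∀ v, h ≤ (univ.filter fun w => A v w).card) →
    (∀ U : Finset V, 2 ≤ U.card → Strong A U → ModPart A Δ U) → HasTT k A := by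
  obtain ⟨N, hN⟩ : ∃ N, N = k + k * k * (2 * k) := ⟨_, rfl⟩
  obtain ⟨L, hL⟩ : ∃ L, L = 4 * N + 4 * k + 2 := ⟨_, rfl⟩
  obtain ⟨Θ, hΘ⟩ : ∃ Θ, Θ = Δ * (2 ^ k * L) + N + 3 * (N + 1) * 2 ^ k := ⟨_, rfl⟩
  refine ⟨((Δ + 1) * (2 ^ k * L) + 1) + N + k + Θ * 2 ^ k, ?_⟩
  intro V _ _ A hirr hdeg hmp
  rcases Nat.eq_zero_or_pos k with hk | hk
  · rw [hk]
    exact asm (ℓ := 0) (N := 0) (by simp) [] (by simp) List.nodup_nil List.Pairwise.nil
  by_contra hT
  have key : ∀ n : ℕ, ∀ (U E Rr : Finset V) (P : List V) (lam : V → ℕ), U.card = n → U.Nonempty →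
      Inv A k N Θ U E Rr P lam → False := by
    intro n
    induction n using Nat.strong_induction_on with
    | _ n ih =>
      intro U E Rr P lam hn hU hI
      by_cases hcl : ∃ W : Finset V, W ⊆ U ∧ W.Nonempty ∧ (∀ z ∈ W, ∀ w ∈ U, A z w → w ∈ W) ∧
          W ≠ U
      · obtain ⟨W, h1, h2, h3, h4⟩ := hcl
        have hlt : W.card < n := by
          rw [← hn]
          exact card_lt_card (lt_of_le_of_ne h1 h4)
        exact ih _ hlt W E Rr P lam rfl h2 (hI.closed h1 h3)
      · push Not at hcl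
        have hst : Strong A U := strong_of hcl
        have hd : ∀ u ∈ U, (Δ + 1) * (2 ^ k * L) < (U.filter fun w => A u w).card := by
          intro u hu
          exact hI.deg hN.ge hT hu (d := (Δ + 1) * (2 ^ k * L) + 1) (hdeg u)
        have h2 : 2 ≤ U.card := by
          obtain ⟨u, hu⟩ := hU
          have h3 := hd u hu
          obtain ⟨w, hw⟩ := card_pos.1 (lt_of_le_of_lt (Nat.zero_le _) h3)
          rw [mem_filter] at hw
          have h4 : u ≠ w := fun h => hirr u (by rw [← h] at hw; exact hw.2)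
          exact one_lt_card.2 ⟨u, hu, w, hw.1, h4⟩
        obtain ⟨U', E', Rr', P', lam', g1, g2, g3⟩ := hI.step hirr hk hN.ge hL.ge hT hΘ.ge hU hd
          (hmp U h2 hst)
        exact ih _ (by omega) U' E' Rr' P' lam' rfl g2 g3
  refine key _ univ ∅ ∅ [] (fun _ => 0) rfl univ_nonempty ?_
  exact
    { e_dis := by simp
      p_dis := by simp
      r_dis := by simp
      esc := by simp
      p_nd := List.nodup_nil
      p_pw := List.Pairwise.nil
      p_rob := by simp
      r_adj := by simp
      r_clq := by simp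
      r_lam := by simp
      r_fib := by simp
      out := fun _ _ w _ => Or.inl (mem_univ w)
      e_few := by simp }

end Pool.MTK
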