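import Pool.Agent.H25.MTK.Wlk
import Pool.Agent.H25.MTK.Clu

/-!
# Modular partitions: the sink
-/

set_option autoImplicit false

namespace Pool.MTK

open Finset

variable {V : Type} [Fintype V]

omit [Fintype V] in
/-- Adjacent, in one direction or in the other. -/
def Ad (A : V → V → Prop) (u v : V) : Prop := A u v ∨ A v u

omit [Fintype V] in
/-- All the vertices of `U` reach each other inside `U`. -/
def Strong (A : V → V → Prop) (U : Finset V) : Prop :=
  ∀ u ∈ U, ∀ v ∈ U, Relation.ReflTransGen (fun x y => A x y ∧ x ∈ U ∧ y ∈ U) u v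

omit [Fintype V] in
open Classical in
/-- `U` is divided into at least two modules (of the underlying graph on `U`), the classes of `p`,
each of them adjacent to at most `Δ` others. -/
def ModPart (A : V → V → Prop) (Δ : ℕ) (U : Finset V) : Prop :=
  ∃ p : V → ℕ, (∃ u ∈ U, ∃ v ∈ U, p u ≠ p v) ∧
    (∀ u ∈ U, ∀ v ∈ U, ∀ w ∈ U, p u = p v → p w ≠ p u → Ad A u w → Ad A v w) ∧
    ∀ u ∈ U, ((U.filter fun w => p w ≠ p u ∧ Ad A u w).image p).card ≤ Δ

omit [Fintype V] in
open Classical in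
/-- The vertices of `U` which are adjacent to the module `j`. -/
noncomputable def Rm (A : V → V → Prop) (U : Finset V) (p : V → ℕ) (j : ℕ) : Finset V :=
  U.filter fun w => p w ≠ j ∧ ∀ u ∈ U, p u = j → Ad A u w

open Classical in
/-- **The sink.** A module `M` of `U` with the adjacent vertices `R`, and a part `Z` of `M` with
few out-neighbours in `R`, such that the other vertices of `M` have many more. -/
theorem sink {A : V → V → Prop} {k N L Δ : ℕ} (hk : 1 ≤ k) (hN : k + k * k * (2 * k) ≤ N)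
    (hL : 4 * N + 4 * k + 2 ≤ L) (hT : ¬ HasTT k A) {U : Finset V} (hU : U.Nonempty)
    (hdeg : ∀ u ∈ U, (Δ + 1) * (2 ^ k * L) < (U.filter fun w => A u w).card)
    {p : V → ℕ}
    (hΔ : ∀ u ∈ U, ((U.filter fun w => p w ≠ p u ∧ Ad A u w).image p).card ≤ Δ) :
    ∃ (j : ℕ) (θ : ℕ) (Z : Finset V), θ ≤ Δ * (2 ^ k * L) + N + 3 * (N + 1) * 2 ^ k ∧
      Z = (U.filter fun v => p v = j).filter (fun v => ((Rm A U p j).filter fun w => A v w).card ≤ θ)
      ∧ L < Z.card ∧ ∀ v ∈ U, p v = j → v ∉ Z →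
        θ + N < ((Rm A U p j).filter fun w => A v w).card := by
  -- the clusters
  have hcl : ∀ j, ∃ c : V → V, (∀ v ∈ U.filter (fun v => p v = j), c v ∈ U.filter fun v => p v = j) ∧
      ((U.filter fun v => p v = j).image c).card < 2 ^ k ∧
      ∀ v ∈ U.filter (fun v => p v = j),
        ((Rm A U p j).filter fun w => A v w ∧ ¬ A (c v) w).card ≤ N ∧
        ((Rm A U p j).filter fun w => A (c v) w ∧ ¬ A v w).card ≤ N := by
    intro j
    refine clus (ℓ := 2 * k) (by omega) hN hT ?_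
    intro a ha w hw
    rw [mem_filter] at ha
    unfold Rm at hw
    rw [mem_filter] at hw
    exact hw.2.2 a ha.1 ha.2
  choose c' hc' using hcl
  obtain ⟨c, hc⟩ : ∃ c : V → V, c = fun v => c' (p v) v := ⟨_, rfl⟩
  have c1 : ∀ v ∈ U, c v ∈ U ∧ p (c v) = p v := by
    intro v hv
    have := (hc' (p v)).1 v (mem_filter.2 ⟨hv, rfl⟩)
    rw [mem_filter] at this
    rw [hc]
    exact this
  have c2 : ∀ j, ((U.filter fun v => p v = j).image c).card < 2 ^ k := by
    intro j
    have e : (U.filter fun v => p v = j).image c = (U.filter fun v => p v = j).image (c' j) := by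
      refine image_congr fun v hv => ?_
      have := (mem_filter.1 (mem_coe.1 hv)).2
      rw [hc]
      simp only
      rw [this]
    rw [e]
    exact (hc' j).2.1
  have c3 : ∀ v ∈ U, ((Rm A U p (p v)).filter fun w => A v w ∧ ¬ A (c v) w).card ≤ N ∧
      ((Rm A U p (p v)).filter fun w => A (c v) w ∧ ¬ A v w).card ≤ N := by
    intro v hv
    have := (hc' (p v)).2.2 v (mem_filter.2 ⟨hv, rfl⟩)
    rw [hc]
    exact this
  -- nodes
  obtain ⟨Nd, hNd⟩ : ∃ Nd : Finset V → V → Prop, Nd = fun X s => L < X.card ∧ s ∈ U ∧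
      ∀ x ∈ X, x ∈ U ∧ p x = p s ∧
        ((Rm A U p (p s)).filter fun w => A x w ∧ ¬ A s w).card ≤ N ∧
        ((Rm A U p (p s)).filter fun w => A s w ∧ ¬ A x w).card ≤ N := ⟨_, rfl⟩
  have hfind : ∀ (T : Finset V) (D : ℕ), (∀ w ∈ T, w ∈ U) → (T.image p).card ≤ D →
      D * (2 ^ k * L) < T.card → ∃ Y s, Nd Y s ∧ Y ⊆ T := by
    intro T D hTU hD hlt
    obtain ⟨j, hj, hj2⟩ := exists_lt_card_fiber_of_mul_lt_card_of_maps_to
      (s := T) (t := T.image p) (f := p) (n := 2 ^ k * L) (fun w hw => mem_image_of_mem p hw)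
      (lt_of_le_of_lt (Nat.mul_le_mul_right _ hD) hlt)
    obtain ⟨s, hs, hs2⟩ := exists_lt_card_fiber_of_mul_lt_card_of_maps_to
      (s := T.filter fun x => p x = j) (t := (U.filter fun v => p v = j).image c) (f := c) (n := L)
      (fun w hw => by
        rw [mem_filter] at hw
        exact mem_image_of_mem c (mem_filter.2 ⟨hTU w hw.1, hw.2⟩))
      (lt_of_le_of_lt (Nat.mul_le_mul_right _ (c2 j).le) hj2)
    refine ⟨(T.filter fun x => p x = j).filter fun x => c x = s, s, ?_,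
      (filter_subset _ _).trans (filter_subset _ _)⟩
    rw [hNd]
    have hsU : s ∈ U ∧ p s = j := by
      rw [mem_image] at hs
      obtain ⟨v, hv, rfl⟩ := hs
      rw [mem_filter] at hv
      have := c1 v hv.1
      exact ⟨this.1, this.2.trans hv.2⟩
    refine ⟨hs2, hsU.1, fun x hx => ?_⟩
    rw [mem_filter, mem_filter] at hx
    have hxU := hTU x hx.1.1
    have h3 := c3 x hxU
    rw [hx.2, hx.1.2] at h3
    exact ⟨hxU, hx.1.2.trans hsU.2.symm, by rw [hsU.2]; exact h3.1, by rw [hsU.2]; exact h3.2⟩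
  have hRm : ∀ v ∈ U, ∀ w ∈ Rm A U p (p v), w ∈ U ∧ p w ≠ p v ∧ Ad A v w := by
    intro v hv w hw
    unfold Rm at hw
    rw [mem_filter] at hw
    exact ⟨hw.1, hw.2.1, hw.2.2 v hv rfl⟩
  -- the first node
  obtain ⟨u, hu⟩ := hU
  obtain ⟨X0, s0, hX0, -⟩ := hfind (U.filter fun w => A u w) (Δ + 1)
    (fun w hw => (mem_filter.1 hw).1) (by
      refine (card_le_card (t := insert (p u)
        ((U.filter fun w => p w ≠ p u ∧ Ad A u w).image p)) ?_).trans
        ((card_insert_le _ _).trans (Nat.succ_le_succ (hΔ u hu)))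
      intro i hi
      rw [mem_image] at hi
      obtain ⟨w, hw, rfl⟩ := hi
      rw [mem_filter] at hw
      rw [mem_insert, mem_image]
      by_cases h : p w = p u
      · exact Or.inl h
      · exact Or.inr ⟨w, mem_filter.2 ⟨hw.1, h, Or.inl hw.2⟩, rfl⟩) (hdeg u hu)
  -- a sink
  have hsink : ∃ X s, Nd X s ∧ ((Rm A U p (p s)).filter fun w => A s w).card ≤
      Δ * (2 ^ k * L) := by
    by_contra hcon
    push Not at hcon
    refine hT (walk_tt (N := N) (L := L) (fun X => ∃ s, Nd X s) hN hL ?_ ?_ ⟨s0, hX0⟩)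
    · rintro X ⟨s, hs⟩
      rw [hNd] at hs
      exact hs.1
    · rintro X ⟨s, hs⟩
      have hs' := hs
      rw [hNd] at hs'
      obtain ⟨Y, s', hY, hYs⟩ := hfind ((Rm A U p (p s)).filter fun w => A s w) Δ
        (fun w hw => (hRm s hs'.2.1 w (mem_filter.1 hw).1).1) (by
          refine (card_le_card (image_subset_image fun w hw => ?_)).trans (hΔ s hs'.2.1)
          have := hRm s hs'.2.1 w (mem_filter.1 hw).1
          exact mem_filter.2 ⟨this.1, this.2.1, this.2.2⟩) (hcon X s hs)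
      refine ⟨Y, ⟨s', hY⟩, fun x hx t ht => ?_⟩
      refine (card_le_card fun y hy => ?_).trans (hs'.2.2 x hx).2.2.2
      have h1 := ht y hy
      have h2 := mem_filter.1 (hYs h1.1)
      exact mem_filter.2 ⟨h2.1, h2.2, h1.2⟩
  obtain ⟨X, s, hX, hXs⟩ := hsink
  rw [hNd] at hX
  obtain ⟨x1, x2, x3⟩ := hX
  -- the gap
  obtain ⟨a, ha⟩ : ∃ a : V → ℕ, a = fun v => ((Rm A U p (p s)).filter fun w => A v w).card :=
    ⟨_, rfl⟩
  have hle : ∀ u v n, ((Rm A U p (p s)).filter fun w => A u w ∧ ¬ A v w).card ≤ n →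
      a u ≤ a v + n := by
    intro u v n h
    rw [ha]
    refine (card_le_card (t := ((Rm A U p (p s)).filter fun w => A v w) ∪
      ((Rm A U p (p s)).filter fun w => A u w ∧ ¬ A v w)) ?_).trans
      ((card_union_le _ _).trans (Nat.add_le_add_left h _))
    intro w hw
    rw [mem_filter] at hw
    rw [mem_union, mem_filter, mem_filter]
    by_cases h' : A v w
    · exact Or.inl ⟨hw.1, h'⟩
    · exact Or.inr ⟨hw.1, hw.2, h'⟩
  obtain ⟨θ, t1, t2, t3⟩ := gap (T := Δ * (2 ^ k * L) + N) (N := N) a c (c2 (p s)) (fun v hv => by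
    rw [mem_filter] at hv
    have h3 := c3 v hv.1
    rw [hv.2] at h3
    exact ⟨hle _ _ _ h3.1, hle _ _ _ h3.2⟩)
  refine ⟨p s, θ, _, t2, rfl, ?_, ?_⟩
  · refine x1.trans_le (card_le_card fun x hx => ?_)
    obtain ⟨y1, y2, y3, y4⟩ := x3 x hx
    rw [mem_filter, mem_filter]
    refine ⟨⟨y1, y2⟩, ?_⟩
    have h5 := hle x s N y3
    rw [ha] at h5
    simp only at h5
    omega
  · intro v hv hpv hvZ
    rw [mem_filter, mem_filter] at hvZ
    have h6 := t3 v (mem_filter.2 ⟨hv, hpv⟩)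
    rw [ha] at h6
    simp only at h6
    refine h6.resolve_left fun h => hvZ ⟨⟨hv, hpv⟩, h⟩

end Pool.MTK
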