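import Pool.Agent.H25.MTK.Bas

/-!
# Thick walks

A family of large sets, each of which dominates another one almost completely, gives a subdivision
of `TT_k`.
-/

set_option autoImplicit false

namespace Pool.MTK

open Finset

variable {V : Type}

theorem pick {Y F : Finset V} {p : V → Prop} [DecidablePred p]
    (h : F.card + (Y.filter fun y => ¬ p y).card < Y.card) :
    ∃ y ∈ Y, p y ∧ y ∉ F := by
  classical
  by_contra hcon
  push Not at hcon
  have h1 : Y ⊆ F ∪ Y.filter fun y => ¬ p y := by
    intro y hy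
    rw [mem_union, mem_filter]
    by_cases hp : p y
    · exact Or.inl (hcon y hy hp)
    · exact Or.inr ⟨hy, hp⟩
  have := (card_le_card h1).trans (card_union_le _ _)
  omega

open Classical in
/-- A vertex which is dominated by one half of a set. -/
theorem good_ex {A : V → V → Prop} {N k : ℕ} {X Y P : Finset V}
    (h : ∀ y ∈ Y, (X.filter fun x => ¬ A y x).card ≤ N) (hP : P.card ≤ k)
    (hX : 2 * N + k < X.card) :
    ∃ b ∈ X, b ∉ P ∧ 2 * (Y.filter fun y => ¬ A y b).card ≤ Y.card := by
  by_contra hcon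
  push Not at hcon
  have h1 : ∑ b ∈ X \ P, (Y.card + 1) ≤ ∑ b ∈ X \ P, 2 * (Y.filter fun y => ¬ A y b).card :=
    sum_le_sum fun b hb => by
      rw [mem_sdiff] at hb
      exact hcon b hb.1 hb.2
  rw [sum_const, smul_eq_mul, ← mul_sum] at h1
  have h2 : ∑ b ∈ X \ P, (Y.filter fun y => ¬ A y b).card ≤
      ∑ b ∈ X, (Y.filter fun y => ¬ A y b).card :=
    sum_le_sum_of_subset sdiff_subset
  have h3 : ∑ b ∈ X, (Y.filter fun y => ¬ A y b).card =
      ∑ y ∈ Y, (X.filter fun x => ¬ A y x).card :=
    (sum_card_bipartiteAbove_eq_sum_card_bipartiteBelow (s := Y) (t := X)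
      fun y x => ¬ A y x).symm
  have h4 : ∑ y ∈ Y, (X.filter fun x => ¬ A y x).card ≤ Y.card * N := by
    refine (sum_le_sum h).trans ?_
    rw [sum_const, smul_eq_mul]
  have h5 : X.card ≤ (X \ P).card + k := by
    have := card_le_card (show X ⊆ (X \ P) ∪ P from fun x hx => by
      rw [mem_union, mem_sdiff]
      by_cases hp : x ∈ P
      · exact Or.inr hp
      · exact Or.inl ⟨hx, hp⟩)
    have := this.trans (card_union_le _ _)
    omega
  have h6 : 2 * N + 1 ≤ (X \ P).card := by omega
  have h7 : (2 * N + 1) * (Y.card + 1) ≤ 2 * (Y.card * N) :=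
    (Nat.mul_le_mul_right _ h6).trans (h1.trans (Nat.mul_le_mul_left 2 (h2.trans (h3.le.trans h4))))
  nlinarith

open Classical in
/-- **Thick walks.** -/
theorem walk {A : V → V → Prop} {k N L : ℕ} (Nd : Finset V → Prop)
    (hL : 4 * N + 4 * k + 2 ≤ L) (h1 : ∀ X, Nd X → L < X.card)
    (h2 : ∀ X, Nd X → ∃ Y, Nd Y ∧ ∀ x ∈ X, (Y.filter fun y => ¬ A x y).card ≤ N) :
    ∀ j ≤ k, ∀ X, Nd X → ∃ P : List V, P.length = j ∧ P.Nodup ∧
      P.Pairwise (Rob A (2 * k) N) ∧
      ∀ x ∈ X, ∀ b ∈ P, Rob A (2 * j) (N + 2 * (k - j)) x b := by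
  intro j
  induction j with
  | zero => exact fun _ X _ => ⟨[], rfl, List.nodup_nil, List.Pairwise.nil, by simp⟩
  | succ j ih =>
    intro hj X hX
    obtain ⟨Y, hY, hXY⟩ := h2 X hX
    obtain ⟨X2, hX2, hYX⟩ := h2 Y hY
    obtain ⟨P, p1, p2, p3, p4⟩ := ih (by omega) X2 hX2
    have cY := h1 Y hY
    have cX2 := h1 X2 hX2
    have ePj : P.toFinset.card ≤ k := (List.toFinset_card_le P).trans (by omega)
    obtain ⟨b, hb, hbP, hbY⟩ := good_ex (P := P.toFinset) hYX ePj (by omega)
    rw [List.mem_toFinset] at hbP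
    refine ⟨b :: P, by simp [p1], List.nodup_cons.2 ⟨hbP, p2⟩, ?_, ?_⟩
    · rw [List.pairwise_cons]
      exact ⟨fun c hc => (p4 b hb c hc).mono (by omega) (by omega), p3⟩
    · intro x hx c hc F hF
      rcases List.mem_cons.1 hc with rfl | hc
      · -- the new vertex
        obtain ⟨y, hy, ⟨hy1, hy2⟩, hyF⟩ := pick (Y := Y) (F := F) (p := fun y => A x y ∧ A y c) (by
          have e1 : (Y.filter fun y => ¬ (A x y ∧ A y c)).card ≤
              (Y.filter fun y => ¬ A x y).card + (Y.filter fun y => ¬ A y c).card := by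
            refine (card_le_card ?_).trans (card_union_le _ _)
            intro y hy
            rw [mem_filter] at hy
            rw [mem_union, mem_filter, mem_filter]
            by_cases h : A x y
            · exact Or.inr ⟨hy.1, fun h' => hy.2 ⟨h, h'⟩⟩
            · exact Or.inl ⟨hy.1, h⟩
          have e2 := hXY x hx
          omega)
        refine ⟨[y], ?_, List.nodup_singleton y, by simpa using hyF, ?_⟩
        · show 1 ≤ 2 * (j + 1)
          omega
        · simpa using ⟨hy1, hy2⟩
      · obtain ⟨y, hy, hy1, hyF⟩ := pick (Y := Y) (F := F) (p := fun y => A x y) (by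
          have e2 := hXY x hx
          omega)
        obtain ⟨x2, hx2, hx3, hx2F⟩ := pick (Y := X2) (F := insert y F) (p := fun z => A y z) (by
          have e2 := hYX y hy
          have e3 := card_insert_le y F
          omega)
        rw [mem_insert, not_or] at hx2F
        obtain ⟨l, l1, l2, l3, l4⟩ := p4 x2 hx2 c hc (insert x2 (insert y F)) (by
          have e3 := card_insert_le y F
          have e4 := card_insert_le x2 (insert y F)
          omega)
        have l3' : ∀ z ∈ l, z ≠ x2 ∧ z ≠ y ∧ z ∉ F := fun z hz => by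
          have := l3 z hz
          rw [mem_insert, mem_insert, not_or, not_or] at this
          exact this
        refine ⟨y :: x2 :: l, by simp; omega, ?_, ?_, ?_⟩
        · rw [List.nodup_cons, List.nodup_cons]
          refine ⟨?_, fun h => (l3' _ h).1 rfl, l2⟩
          rw [List.mem_cons, not_or]
          exact ⟨fun h => hx2F.1 h.symm, fun h => (l3' _ h).2.1 rfl⟩
        · intro z hz
          rcases List.mem_cons.1 hz with rfl | hz
          · exact hyF
          · rcases List.mem_cons.1 hz with rfl | hz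
            · exact hx2F.2
            · exact (l3' z hz).2.2
        · rw [List.cons_append, List.cons_append, List.isChain_cons_cons, List.isChain_cons_cons]
          exact ⟨hy1, hx3, l4⟩

/-- A node without sink gives a subdivision. -/
theorem walk_tt {A : V → V → Prop} {k N L : ℕ} (Nd : Finset V → Prop)
    (hN : k + k * k * (2 * k) ≤ N) (hL : 4 * N + 4 * k + 2 ≤ L) (h1 : ∀ X, Nd X → L < X.card)
    (h2 : ∀ X, Nd X → ∃ Y, Nd Y ∧
      ∀ x ∈ X, ∀ s : Finset V, (∀ y ∈ s, y ∈ Y ∧ ¬ A x y) → s.card ≤ N)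
    {X : Finset V} (hX : Nd X) : HasTT k A := by
  classical
  obtain ⟨P, p1, p2, p3, _⟩ := walk (A := A) Nd hL h1 (fun X hX => by
    obtain ⟨Y, hY, h⟩ := h2 X hX
    exact ⟨Y, hY, fun x hx => h x hx _ fun y hy => mem_filter.1 hy⟩) k le_rfl X hX
  exact asm hN P p1.ge p2 p3

end Pool.MTK
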